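import Pool.Agent.Helper61.CAR.GoalsQ
import Pool.Agent.Helper80.CAR.NS

/-!
# Project CAR: suspensions of nuclear algebras have property (Q)
-/

set_option autoImplicit false

open scoped ComplexOrder ZeroAtInfty InnerProductSpace ComplexConjugate Topology
open Filter

namespace Pool.Agent.Helper48.CAR

open Pool.Agent.Helper61.CAR Pool.Agent.Helper34.CAR
open Pool.Agent.Helper80.CAR (c0_norm_le c0_sum_apply star_tens_mul qf_tens)

theorem sum4 {α β γ δ M : Type} [Fintype α] [Fintype β] [Fintype γ] [Fintype δ]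
    [AddCommMonoid M] (F : α → β → γ → δ → M) :
    ∑ p, ∑ q, ∑ l, ∑ l', F p q l l' = ∑ l, ∑ l', ∑ p, ∑ q, F p q l l' :=
  calc ∑ p, ∑ q, ∑ l, ∑ l', F p q l l' = ∑ p, ∑ l, ∑ q, ∑ l', F p q l l' :=
        Finset.sum_congr rfl fun _ _ => Finset.sum_comm
    _ = ∑ l, ∑ p, ∑ q, ∑ l', F p q l l' := Finset.sum_comm
    _ = ∑ l, ∑ p, ∑ l', ∑ q, F p q l l' :=
        Finset.sum_congr rfl fun l _ => Finset.sum_congr rfl fun _ _ => Finset.sum_comm
    _ = ∑ l, ∑ l', ∑ p, ∑ q, F p q l l' :=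
        Finset.sum_congr rfl fun _ _ => Finset.sum_comm

/-- The compression of a matrix. -/
noncomputable def gm {J : Type} [Fintype J] {m : ℕ} (a : CStarMatrix J J ℂ)
    (u : J → Fin m → ℂ) : CStarMatrix (Fin m) (Fin m) ℂ :=
  CStarMatrix.ofMatrix fun l l' => ∑ p, ∑ q, conj (u p l) * a p q * u q l'

theorem gm_apply {J : Type} [Fintype J] {m : ℕ} (a : CStarMatrix J J ℂ)
    (u : J → Fin m → ℂ) (l l' : Fin m) :
    gm a u l l' = ∑ p, ∑ q, conj (u p l) * a p q * u q l' := rfl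

theorem qf_lin {D : Type} [NonUnitalCStarAlgebra D] {J : Type} [Fintype J] {m : ℕ}
    (a : CStarMatrix J J ℂ) (u : J → Fin m → ℂ) (c : Fin m → D) :
    qf a (fun p => ∑ l, u p l • c l) = qf (gm a u) c := by
  have h1 : qf a (fun p => ∑ l, u p l • c l) =
      ∑ p, ∑ q, ∑ l, ∑ l', (conj (u p l) * a p q * u q l') • (star (c l) * c l') := by
    unfold qf
    refine Finset.sum_congr rfl fun p _ => Finset.sum_congr rfl fun q _ => ?_
    rw [star_sum, Finset.sum_mul, Finset.smul_sum]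
    refine Finset.sum_congr rfl fun l _ => ?_
    rw [Finset.mul_sum, Finset.smul_sum]
    refine Finset.sum_congr rfl fun l' _ => ?_
    rw [star_smul, smul_mul_smul_comm, smul_smul]
    congr 1
    rw [Complex.star_def]
    ring
  rw [h1, sum4]
  unfold qf
  refine Finset.sum_congr rfl fun l _ => Finset.sum_congr rfl fun l' _ => ?_
  rw [gm_apply, Finset.sum_smul]
  refine Finset.sum_congr rfl fun p _ => ?_
  rw [Finset.sum_smul]

theorem qf_one {D : Type} [NonUnitalCStarAlgebra D] {J : Type} [Fintype J] [DecidableEq J]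
    (v : J → D) : qf (1 : CStarMatrix J J ℂ) v = ∑ p, star (v p) * v p := by
  simp only [qf, CStarMatrix.one_apply, ite_smul, one_smul, zero_smul, Finset.sum_ite_eq,
    Finset.mem_univ, if_true]

theorem le_root {J : Type} [Fintype J] (z : J → ℂ) (p : J) :
    ‖z p‖ ≤ Real.sqrt (∑ p, ‖z p‖ ^ 2) := by
  refine Real.le_sqrt_of_sq_le ?_
  exact Finset.single_le_sum (f := fun p => ‖z p‖ ^ 2) (fun _ _ => sq_nonneg _)
    (Finset.mem_univ p)

/-- The norm is bounded by the entries. -/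
theorem norm_le_entries (hMN : S_MN) {m : ℕ} (a : CStarMatrix (Fin m) (Fin m) ℂ) (δ : ℝ)
    (hδ : 0 ≤ δ) (h : ∀ p q, ‖a p q‖ ≤ δ) : ‖a‖ ≤ (m : ℝ) ^ 2 * δ := by
  refine hMN (Fin m) a _ (by positivity) fun z w => ?_
  set Z := Real.sqrt (∑ p, ‖z p‖ ^ 2) with hZ
  set W := Real.sqrt (∑ p, ‖w p‖ ^ 2) with hW
  have hZ0 : 0 ≤ Z := Real.sqrt_nonneg _
  have hW0 : 0 ≤ W := Real.sqrt_nonneg _
  calc ‖∑ p, ∑ q, conj (z p) * a p q * w q‖ ≤ ∑ p, ∑ q, ‖conj (z p) * a p q * w q‖ :=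
        (norm_sum_le _ _).trans (Finset.sum_le_sum fun p _ => norm_sum_le _ _)
    _ ≤ ∑ _p : Fin m, ∑ _q : Fin m, Z * δ * W := by
        refine Finset.sum_le_sum fun p _ => Finset.sum_le_sum fun q _ => ?_
        rw [norm_mul, norm_mul, Complex.norm_conj]
        exact mul_le_mul (mul_le_mul (le_root z p) (h p q) (norm_nonneg _) hZ0) (le_root w q)
          (norm_nonneg _) (mul_nonneg hZ0 hδ)
    _ = (m : ℝ) ^ 2 * δ * Z * W := by
        rw [Finset.sum_const, Finset.sum_const, Finset.card_univ, Fintype.card_fin,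
          nsmul_eq_mul, nsmul_eq_mul]
        ring

/-- The compression of the identity. -/
theorem norm_gm_one (hMN : S_MN) {J : Type} [Fintype J] [DecidableEq J] {m : ℕ}
    (u : J → Fin m → ℂ) (hu : ∀ z : Fin m → ℂ, ∑ p, ‖∑ i, u p i * z i‖ ^ 2 ≤ ∑ i, ‖z i‖ ^ 2) :
    ‖gm (1 : CStarMatrix J J ℂ) u‖ ≤ 1 := by
  refine hMN (Fin m) _ 1 zero_le_one fun z w => ?_
  have e : ∑ l, ∑ l', conj (z l) * gm (1 : CStarMatrix J J ℂ) u l l' * w l' =
      ∑ p, conj (∑ l, u p l * z l) * ∑ l', u p l' * w l' := by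
    have h1 : ∀ l l', conj (z l) * gm (1 : CStarMatrix J J ℂ) u l l' * w l' =
        ∑ p, conj (z l) * (conj (u p l) * u p l') * w l' := by
      intro l l'
      rw [gm_apply, Finset.mul_sum, Finset.sum_mul]
      refine Finset.sum_congr rfl fun p _ => ?_
      congr 2
      rw [Finset.sum_eq_single p]
      · rw [CStarMatrix.one_apply, if_pos rfl, mul_one]
      · intro q _ hq
        rw [CStarMatrix.one_apply, if_neg (Ne.symm hq), mul_zero, zero_mul]
      · intro h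
        exact absurd (Finset.mem_univ p) h
    simp only [h1]
    have h2 : ∑ l, ∑ l', ∑ p, conj (z l) * (conj (u p l) * u p l') * w l' =
        ∑ p, ∑ l, ∑ l', conj (z l) * (conj (u p l) * u p l') * w l' := by
      rw [Finset.sum_comm (s := (Finset.univ : Finset J))]
      refine Finset.sum_congr rfl fun l _ => ?_
      exact Finset.sum_comm
    rw [h2]
    refine Finset.sum_congr rfl fun p _ => ?_
    rw [map_sum, Finset.sum_mul]
    refine Finset.sum_congr rfl fun l _ => ?_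
    rw [Finset.mul_sum]
    refine Finset.sum_congr rfl fun l' _ => ?_
    rw [map_mul]
    ring
  rw [e, one_mul]
  calc ‖∑ p, conj (∑ l, u p l * z l) * ∑ l', u p l' * w l'‖
      ≤ ∑ p, ‖∑ l, u p l * z l‖ * ‖∑ l', u p l' * w l'‖ := by
        refine (norm_sum_le _ _).trans (Finset.sum_le_sum fun p _ => ?_)
        rw [norm_mul, Complex.norm_conj]
    _ ≤ Real.sqrt (∑ p, ‖∑ l, u p l * z l‖ ^ 2) * Real.sqrt (∑ p, ‖∑ l', u p l' * w l'‖ ^ 2) :=
        Real.sum_mul_le_sqrt_mul_sqrt _ _ _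
    _ ≤ _ := mul_le_mul (Real.sqrt_le_sqrt (hu z)) (Real.sqrt_le_sqrt (hu w))
        (Real.sqrt_nonneg _) (Real.sqrt_nonneg _)

theorem qq (hPU : S_PU) (hCHOI : S_CHOI) (hSTINE : S_STINE) (hLAD : S_LAD) (hBD : S_BD)
    (hMN : S_MN) (_hCOL : S_COL) : S_Q := by
  classical
  intro D _ hD F ε hε
  obtain ⟨I, fI, dI, s, g, hg0, hg1, hf⟩ := hPU D F (ε / 4) (by linarith)
  obtain ⟨m, φ, ψ, hφcp, hψcp, hφ1, hψ1, happ⟩ := hD
    ((F ×ˢ (Finset.univ : Finset I)).image fun q => q.1 (s q.2)) (ε / 4) (by linarith)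
  obtain ⟨c, hc, -⟩ := hCHOI D m ψ hψcp hψ1
  obtain ⟨H, iH, iH2, iH3, π, w, hw, hπ⟩ := hSTINE D m φ hφcp hφ1
  set ε' : ℝ := ε / (4 * ((m : ℝ) ^ 2 + 1)) with hε'
  have hm1 : (0 : ℝ) < 4 * ((m : ℝ) ^ 2 + 1) := by positivity
  have hε'0 : 0 < ε' := div_pos hε hm1
  have hε'm : (m : ℝ) ^ 2 * ε' ≤ ε / 4 := by
    rw [hε', mul_div_assoc', div_le_div_iff₀ hm1 (by norm_num)]
    nlinarith [sq_nonneg (m : ℝ)]
  have hε'l : ε' < ε := by
    rw [hε', div_lt_iff₀ hm1]
    nlinarith [sq_nonneg (m : ℝ), mul_nonneg hε.le (sq_nonneg (m : ℝ))]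
  choose J fJ dJ Φ u hΦ1 hΦ2 hu hΦ3 hΦ4 using fun i : I =>
    hLAD D H π m w hw (s i) F ε' hε'0
  obtain ⟨β, -, -, hβn, hβq⟩ := hBD (I × Fin m) (fun k => J k.1)
  let Ψ : C₀(ℝ, D) →ₗ[ℂ] CStarMatrix (Σ k : I × Fin m, J k.1) (Σ k : I × Fin m, J k.1) ℂ :=
    { toFun := fun f => β (fun k => Φ k.1 f)
      map_add' := fun f f' => by
        rw [← map_add]
        congr 1
        funext k
        rw [map_add]
        rfl
      map_smul' := fun a f => by
        rw [RingHom.id_apply, ← map_smul]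
        congr 1
        funext k
        rw [map_smul]
        rfl }
  have hΨ : ∀ f, Ψ f = β (fun k => Φ k.1 f) := fun f => rfl
  set y : (Σ k : I × Fin m, J k.1) → C₀(ℝ, D) :=
    fun k => tens (g k.1.1) (∑ l, u k.1.1 k.2 l • c k.1.2 l) with hy
  refine ⟨Σ k : I × Fin m, J k.1, inferInstance, inferInstance, Ψ, y, ?_, ?_, ?_, ?_, ?_⟩
  · intro f
    rw [hΨ]
    exact hβn _ _ (norm_nonneg _) fun k => hΦ1 k.1 f
  · intro f
    rw [hΨ, hΨ, ← map_star]
    congr 1
    funext k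
    rw [hΦ2]
    rfl
  · refine c0_norm_le _ 1 zero_le_one fun t => ?_
    have h1 : (∑ k : (Σ k : I × Fin m, J k.1), star (y k) * y k) t =
        ∑ i, ((g i t ^ 2 : ℝ) : ℂ) • ψ (gm (1 : CStarMatrix (J i) (J i) ℂ) (u i)) := by
      rw [c0_sum_apply, ← Finset.univ_sigma_univ, Finset.sum_sigma, ← Finset.univ_product_univ,
        Finset.sum_product]
      refine Finset.sum_congr rfl fun i _ => ?_
      rw [hc, Finset.smul_sum]
      refine Finset.sum_congr rfl fun r _ => ?_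
      rw [← qf_lin, qf_one, Finset.smul_sum]
      refine Finset.sum_congr rfl fun p _ => ?_
      exact star_tens_mul _ _ _ _
    rw [h1]
    calc ‖∑ i, ((g i t ^ 2 : ℝ) : ℂ) • ψ (gm (1 : CStarMatrix (J i) (J i) ℂ) (u i))‖
        ≤ ∑ i, g i t ^ 2 := by
          refine (norm_sum_le _ _).trans (Finset.sum_le_sum fun i _ => ?_)
          rw [norm_smul, Complex.norm_real, Real.norm_of_nonneg (sq_nonneg _)]
          refine mul_le_of_le_one_right (sq_nonneg _) ?_
          exact (hψ1 _).trans (norm_gm_one hMN (u i) (hu i))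
      _ ≤ 1 := hg1 t
  · intro f hfF f' hfF'
    have h1 : Ψ (f * f') - Ψ f * Ψ f' = β (fun k => Φ k.1 (f * f') - Φ k.1 f * Φ k.1 f') := by
      rw [hΨ, hΨ, hΨ, ← map_mul, ← map_sub]
      rfl
    rw [h1]
    exact (hβn _ ε' hε'0.le fun k => (hΦ3 k.1 f hfF f' hfF').le).trans_lt hε'l
  · intro f hfF
    refine lt_of_le_of_lt (c0_norm_le _ (ε / 2 + ε / 4) (by linarith) fun t => ?_)
      (by linarith)
    have h1 : (qf (Ψ f) y) t = ∑ i, ((g i t ^ 2 : ℝ) : ℂ) • ψ (gm (Φ i f) (u i)) := by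
      have h2 : qf (Ψ f) y = ∑ k : I × Fin m, qf (Φ k.1 f) fun p =>
          tens (g k.1) (∑ l, u k.1 p l • c k.2 l) := by
        rw [hΨ, hβq]
      rw [h2, c0_sum_apply, ← Finset.univ_product_univ, Finset.sum_product]
      refine Finset.sum_congr rfl fun i _ => ?_
      rw [hc, Finset.smul_sum]
      refine Finset.sum_congr rfl fun r _ => ?_
      rw [← qf_lin]
      exact qf_tens _ _ _ _
    have h3 : (qf (Ψ f) y - f) t = (∑ i, ((g i t ^ 2 : ℝ) : ℂ) •
        (ψ (gm (Φ i f) (u i)) - f (s i))) + ((∑ i, ((g i t ^ 2 : ℝ) : ℂ) • f (s i)) - f t) := by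
      have h4 : (qf (Ψ f) y - f) t = (qf (Ψ f) y) t - f t := rfl
      rw [h4, h1]
      simp only [smul_sub, Finset.sum_sub_distrib]
      abel
    rw [h3]
    refine (norm_add_le _ _).trans (add_le_add ?_ (hf f hfF t).le)
    refine (norm_sum_le _ _).trans ?_
    have hb : ∀ i, ‖ψ (gm (Φ i f) (u i)) - f (s i)‖ ≤ ε / 2 := by
      intro i
      have e1 : ψ (gm (Φ i f) (u i)) - f (s i) =
          ψ (gm (Φ i f) (u i) - φ (f (s i))) + (ψ (φ (f (s i))) - f (s i)) := by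
        rw [map_sub]
        abel
      rw [e1]
      have e2 : ‖gm (Φ i f) (u i) - φ (f (s i))‖ ≤ (m : ℝ) ^ 2 * ε' := by
        refine norm_le_entries hMN _ ε' hε'0.le fun p q => ?_
        rw [CStarMatrix.sub_apply, gm_apply, hπ]
        exact (hΦ4 i f hfF p q).le
      have e3 : ‖ψ (φ (f (s i))) - f (s i)‖ < ε / 4 := happ _
        (Finset.mem_image.2 ⟨(f, i), Finset.mem_product.2 ⟨hfF, Finset.mem_univ _⟩, rfl⟩)
      refine (norm_add_le _ _).trans ?_
      have e4 := (hψ1 (gm (Φ i f) (u i) - φ (f (s i)))).trans (e2.trans hε'm)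
      linarith
    calc ∑ i, ‖((g i t ^ 2 : ℝ) : ℂ) • (ψ (gm (Φ i f) (u i)) - f (s i))‖
        ≤ ∑ i, g i t ^ 2 * (ε / 2) := by
          refine Finset.sum_le_sum fun i _ => ?_
          rw [norm_smul, Complex.norm_real, Real.norm_of_nonneg (sq_nonneg _)]
          exact mul_le_mul_of_nonneg_left (hb i) (sq_nonneg _)
      _ = (∑ i, g i t ^ 2) * (ε / 2) := (Finset.sum_mul _ _ _).symm
      _ ≤ 1 * (ε / 2) := mul_le_mul_of_nonneg_right (hg1 t) (by linarith)
      _ = ε / 2 := one_mul _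

end Pool.Agent.Helper48.CAR
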