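import Pool.Agent.Helper34.CAR.GoalsC
import Pool.Agent.Helper39.CR.OMG

/-!
Project CAR, packet EPP: every nonzero element of the fixed point algebra dominates a rank one
scalar corner.
-/

open scoped ComplexOrder ZeroAtInfty
open TopologicalSpace

namespace Pool.Agent.Helper48.CAR

open Pool.Agent.Helper34.CAR Pool.Agent.Helper39.Uct Pool.Agent.Helper39.CR

noncomputable section

/-- A matrix that commutes with everything that commutes with a graded matrix is graded. -/
theorem grd_of_comm {I Γ B : Type} [Fintype I] [DecidableEq I] [CStarAlgebra B] (w : I → Γ)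
    (c g : Mt I B) (hc : c ∈ grd B w) (hg : ∀ b, b * c = c * b → b * g = g * b) :
    g ∈ grd B w := by
  classical
  intro x y hxy
  let z : Mt I B := Mt.of fun i j => if i = j ∧ w i = w x then 1 else 0
  have hl : ∀ (b : Mt I B) i j, (z * b) i j = if w i = w x then b i j else 0 := by
    intro b i j
    rw [Mt.mul_apply, Finset.sum_eq_single i]
    · simp only [z, Mt.of_apply, true_and]
      split_ifs <;> simp
    · intro u _ hu
      simp only [z, Mt.of_apply]
      rw [if_neg (fun h => hu h.1.symm), zero_mul]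
    · simp
  have hr : ∀ (b : Mt I B) i j, (b * z) i j = if w j = w x then b i j else 0 := by
    intro b i j
    rw [Mt.mul_apply, Finset.sum_eq_single j]
    · simp only [z, Mt.of_apply, true_and]
      split_ifs <;> simp
    · intro u _ hu
      simp only [z, Mt.of_apply]
      rw [if_neg (fun h => hu h.1), mul_zero]
    · simp
  have h1 : z * c = c * z := by
    ext i j
    rw [hl, hr]
    by_cases h : w i = w j
    · rw [h]
    · rw [hc i j h]
      simp
  have h2 := congrArg (fun m : Mt I B => m x y) (hg z h1)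
  simp only [hl, hr] at h2
  rw [if_pos trivial, if_neg (Ne.symm hxy)] at h2
  exact h2

theorem norm_ineq {A : Type} [CStarAlgebra A] (u v w : A) (l : ℝ) (hl : 0 ≤ l)
    (h : v - (l : ℂ) • (star u * u) = star w * w) : l * ‖u‖ ^ 2 ≤ ‖v‖ := by
  let _ := CStarAlgebra.spectralOrder A
  have _ := CStarAlgebra.spectralOrderedRing A
  have h1 : (0 : A) ≤ (l : ℂ) • (star u * u) :=
    smul_nonneg (by exact_mod_cast hl) (star_mul_self_nonneg u)
  have h2 : (l : ℂ) • (star u * u) ≤ v := by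
    rw [← sub_nonneg, h]
    exact star_mul_self_nonneg w
  have h3 := CStarAlgebra.norm_le_norm_of_nonneg_of_le h1 h2
  rw [norm_smul, CStarRing.norm_star_mul_self, Complex.norm_real, Real.norm_eq_abs,
    abs_of_nonneg hl] at h3
  rw [pow_two]
  exact h3

theorem ι_push {B : Type} [CStarAlgebra B] {θ : B →⋆ₐ[ℂ] B} (s : Sys B θ) {L : Type}
    [CStarAlgebra L] (ι : ∀ i, s.A i →⋆ₐ[ℂ] L) (hc : ∀ i a, ι (i + 1) (s.κ i a) = ι i a)
    (k m : ℕ) (a : s.A k) : ι (k + m) (s.push k m a) = ι k a := by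
  induction m with
  | zero => rfl
  | succ m ih =>
    rw [push_succ]
    exact (hc (k + m) _).trans ih

theorem mul_proj {A : Type} [CStarAlgebra A] (V q : A) (hq : q * q = q) (hs : star q = q)
    (hV : star V * V = q) : V * q = V := by
  have h1 : star (V - V * q) * (V - V * q) = 0 := by
    rw [star_sub, star_mul, hs]
    calc (star V - q * star V) * (V - V * q)
        = star V * V - star V * V * q - q * (star V * V) + q * (star V * V) * q := by
          noncomm_ring
      _ = 0 := by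
          rw [hV, hq, hq]
          abel
  have h2 := CStarRing.star_mul_self_eq_zero_iff (V - V * q) |>.1 h1
  exact (sub_eq_zero.1 h2).symm

theorem epp (hcut : S_CUT) (hinv : Helper34.CAR.S_INV) (hess : S_ESS) (homgq : S_OMGQ) : S_EPP := by
  intro E _ hE s hs L _ ι hL γ Z n hF a ha
  have hα : 0 < ‖(a : L)‖ := norm_pos_iff.2 (fun h => ha (Subtype.ext h))
  set α : ℝ := ‖(a : L)‖ with hαdef
  -- approximation
  obtain ⟨k, ak, hak, hd⟩ := hF.2 (a : L) a.2 (α / 100) (by positivity)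
  set c : s.A k := star ak * ak with hcdef
  have hcg : c ∈ grd _ (wz s n k) := mul_mem (star_mem hak) hak
  have hnk : ‖ι k ak‖ = ‖ak‖ := NonUnitalStarAlgHom.norm_map (ι k) (hL.inj k) ak
  have hak1 : α - α / 100 < ‖ak‖ := by
    have := norm_sub_norm_le (a : L) (ι k ak)
    rw [hnk] at this
    linarith
  have hak2 : ‖ak‖ < α + α / 100 := by
    have := norm_sub_norm_le (ι k ak) (a : L)
    rw [hnk, norm_sub_rev] at this
    linarith
  have hc1 : α ^ 2 / 2 < ‖star ak * ak‖ := by
    rw [CStarRing.norm_star_mul_self]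
    nlinarith
  have hdc : ‖star (a : L) * a - ι k c‖ ≤ 3 * α ^ 2 / 100 := by
    have h1 : star (a : L) * a - ι k c =
        star (a : L) * (a - ι k ak) + star ((a : L) - ι k ak) * ι k ak := by
      rw [hcdef, map_mul, map_star, star_sub]
      noncomm_ring
    rw [h1]
    refine (norm_add_le _ _).trans ?_
    have h2 : ‖star (a : L) * (a - ι k ak)‖ ≤ α * (α / 100) := by
      refine (norm_mul_le _ _).trans ?_
      rw [norm_star]
      exact mul_le_mul_of_nonneg_left hd.le hα.le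
    have h3 : ‖star ((a : L) - ι k ak) * ι k ak‖ ≤ (α / 100) * (α + α / 100) := by
      refine (norm_mul_le _ _).trans ?_
      rw [norm_star, hnk]
      exact mul_le_mul hd.le hak2.le (norm_nonneg _) (by positivity)
    nlinarith
  -- spectral cut-off
  obtain ⟨g, r, hg0, hgs, hgc, hgr⟩ := hcut (s.A k) ak (α ^ 2 / 2) (by positivity) hc1
  have hgg : g ∈ grd _ (wz s n k) := grd_of_comm (wz s n k) c g hcg hgc
  obtain ⟨x0, y0, hxy⟩ : ∃ x y, g x y ≠ 0 := by
    by_contra hcon
    push Not at hcon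
    exact hg0 (Mt.ext hcon)
  obtain ⟨f, hf⟩ := hess E hE (g x0 y0) hxy
  obtain ⟨z, hz⟩ : ∃ z : s.A k, z = Mt.single y0 y0 (f : Unitization ℂ C₀(ℝ, E)) := ⟨_, rfl⟩
  have hzz : ∀ u v, z u v = if u = y0 ∧ v = y0 then (f : Unitization ℂ C₀(ℝ, E)) else 0 := by
    intro u v
    rw [hz]
    rfl
  obtain ⟨h, hhd⟩ : ∃ h : s.A k, h = g * z := ⟨_, rfl⟩
  have hzg : z ∈ grd _ (wz s n k) := by
    rw [hz]
    exact single_mem_grd _ _ _ _
  have hhg : h ∈ grd _ (wz s n k) := by
    rw [hhd]
    exact mul_mem hgg hzg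
  have hh : h x0 y0 = g x0 y0 * (f : Unitization ℂ C₀(ℝ, E)) := by
    rw [hhd, Mt.mul_apply, Finset.sum_eq_single y0]
    · rw [hzz, if_pos ⟨rfl, rfl⟩]
    · intro u _ hu
      rw [hzz, if_neg (fun h => hu h.1), mul_zero]
    · intro h
      exact absurd (Finset.mem_univ _) h
  have hh0 : 0 < ‖h‖ := by
    refine norm_pos_iff.2 (fun h' => hf ?_)
    rw [← hh, h']
    rfl
  have hzf : ∀ x y, (z x y).fst = 0 := by
    intro x y
    rw [hzz]
    split_ifs
    · exact Unitization.fst_inr ℂ f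
    · rfl
  have hmulf : ∀ (u v : s.A k), (∀ x y, (v x y).fst = 0) → ∀ x y, ((u * v) x y).fst = 0 := by
    intro u v hv x y
    rw [Mt.mul_apply, ← chr_apply, map_sum]
    refine Finset.sum_eq_zero fun t _ => ?_
    rw [map_mul, chr_apply, chr_apply, hv, mul_zero]
  obtain ⟨R, hR⟩ : ∃ R : s.A k, R = ak * h := ⟨_, rfl⟩
  have hRg : R ∈ grd _ (wz s n k) := by
    rw [hR]
    exact mul_mem hak hhg
  have hhf : ∀ x y, (h x y).fst = 0 := by
    rw [hhd]
    exact hmulf g z hzf
  have hRf : ∀ x y, (R x y).fst = 0 := by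
    rw [hR]
    exact hmulf ak h hhf
  have hRR : star R * R = star h * c * h := by
    rw [hR, hcdef, star_mul]
    simp only [mul_assoc]
  have hR2 : α ^ 2 / 2 * ‖h‖ ^ 2 ≤ ‖R‖ ^ 2 := by
    have h1 : star R * R - ((α ^ 2 / 2 : ℝ) : ℂ) • (star h * h) = star (r * z) * (r * z) := by
      rw [hRR, hhd]
      calc star (g * z) * c * (g * z) - ((α ^ 2 / 2 : ℝ) : ℂ) • (star (g * z) * (g * z))
          = star z * (star g * (star ak * ak) * g - ((α ^ 2 / 2 : ℝ) : ℂ) • (star g * g)) * z := by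
            rw [hcdef, star_mul, mul_sub, sub_mul, mul_smul_comm, smul_mul_assoc]
            simp only [mul_assoc]
        _ = star (r * z) * (r * z) := by
            rw [hgr, star_mul]
            simp only [mul_assoc]
    have h2 := norm_ineq h (star R * R) (r * z) (α ^ 2 / 2) (by positivity) h1
    rw [CStarRing.norm_star_mul_self, ← pow_two] at h2
    exact h2
  -- the corner
  have hαh : 0 < α ^ 2 * ‖h‖ ^ 2 := by positivity
  obtain ⟨m, p, V, μ, hVg, hμ, hV1, hV2⟩ := homgq C₀(ℝ, E) (flip E) s hs n k R hRg hRf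
    (α ^ 2 / 4 * ‖h‖ ^ 2) (by positivity) (by nlinarith)
  have hμ1 : α ^ 2 / 4 * ‖h‖ ^ 2 ≤ μ := by nlinarith
  set q : s.A (k + m) := Mt.single p p 1 with hqdef
  have hqq : q * q = q := by
    rw [hqdef, Mt.single_mul_single, mul_one]
  have hqs : star q = q := by
    rw [hqdef, Mt.star_single, star_one]
  have hq1 : ‖q‖ ≤ 1 := by
    refine (Mt.norm_single_le p p 1).trans ?_
    rw [CStarRing.norm_one]
  have hVq : V * q = V := mul_proj V q hqq hqs hV1
  have hVn : ‖V‖ ≤ 1 := by
    have : ‖V‖ * ‖V‖ ≤ 1 := by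
      rw [← CStarRing.norm_star_mul_self, hV1]
      exact hq1
    nlinarith [norm_nonneg V]
  obtain ⟨e, he⟩ : ∃ e : L, e = ι (k + m) q := ⟨_, rfl⟩
  obtain ⟨y₀, hy₀⟩ : ∃ y : L, y = ι k h * ι (k + m) V := ⟨_, rfl⟩
  have hy₀n : ‖y₀‖ ≤ ‖h‖ := by
    rw [hy₀]
    refine (norm_mul_le _ _).trans ?_
    have h1 : ‖ι k h‖ ≤ ‖h‖ := NonUnitalStarAlgHom.norm_apply_le (ι k) h
    have h2 : ‖ι (k + m) V‖ ≤ 1 := (NonUnitalStarAlgHom.norm_apply_le (ι (k + m)) V).trans hVn
    calc ‖ι k h‖ * ‖ι (k + m) V‖ ≤ ‖h‖ * 1 :=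
          mul_le_mul h1 h2 (norm_nonneg _) (norm_nonneg _)
      _ = ‖h‖ := mul_one _
  have hy₀e : y₀ * e = y₀ := by
    rw [hy₀, he, mul_assoc, ← map_mul, hVq]
  have hee : e * e = e := by
    rw [he, ← map_mul, hqq]
  have hes : star e = e := by
    rw [he, ← map_star, hqs]
  obtain ⟨d, hdd⟩ : ∃ d : L, d = star ((a : L) * y₀) * (a * y₀) := ⟨_, rfl⟩
  have hde : d * e = d := by
    rw [hdd, mul_assoc, mul_assoc, hy₀e]
  have hds : star d = d := by
    rw [hdd, star_mul, star_star]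
  have hed : e * d = d := by
    have := congrArg star hde
    rwa [star_mul, hes, hds] at this
  have hμe : (μ : ℂ) • e = star y₀ * ι k c * y₀ := by
    rw [he, hy₀, ← map_smul, ← hV2, map_mul, map_mul, ι_push s ι hL.comp, hRR, map_mul, map_mul,
      star_mul, map_star, map_star]
    simp only [mul_assoc]
  have hdμ : ‖d - (μ : ℂ) • e‖ < μ := by
    have h1 : d - (μ : ℂ) • e = star y₀ * (star (a : L) * a - ι k c) * y₀ := by
      rw [hμe, hdd, star_mul]
      noncomm_ring
    rw [h1]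
    have h2 : ‖star y₀ * (star (a : L) * a - ι k c) * y₀‖ ≤
        ‖h‖ * (3 * α ^ 2 / 100) * ‖h‖ := by
      refine (norm_mul_le _ _).trans ?_
      refine mul_le_mul ?_ hy₀n (norm_nonneg _) (by positivity)
      refine (norm_mul_le _ _).trans ?_
      rw [norm_star]
      exact mul_le_mul hy₀n hdc (norm_nonneg _) (norm_nonneg _)
    refine h2.trans_lt (lt_of_lt_of_le ?_ hμ1)
    nlinarith
  obtain ⟨x, hx1, hx2, hx3, hx4⟩ := hinv L e d μ hee hes hed hde hds hdμ
  -- membership in the fixed point algebra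
  have hy₀F : y₀ ∈ fixA γ Z := by
    rw [hy₀]
    exact mul_mem (hF.1 k h hhg) (hF.1 (k + m) V hVg)
  have heF : e ∈ fixA γ Z := by
    rw [he]
    exact hF.1 (k + m) q (single_mem_grd _ _ _ _)
  have haF : (a : L) ∈ fixA γ Z := a.2
  have hdF : d ∈ fixA γ Z := by
    rw [hdd]
    exact mul_mem (star_mem (mul_mem haF hy₀F)) (mul_mem haF hy₀F)
  have hxF : x ∈ fixA γ Z := fun t ht => hx4 (γ.act t) (hdF t ht) (heF t ht)
  refine ⟨k + m, p, ⟨y₀ * x, mul_mem hy₀F hxF⟩, ?_⟩
  change star ((a : L) * (y₀ * x)) * (a * (y₀ * x)) = ι (k + m) q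
  rw [← he, ← hx3, hdd, star_mul, star_mul, star_mul]
  simp only [mul_assoc]

end

end Pool.Agent.Helper48.CAR
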